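import Pool.Agent.Results.MP_a95293_nt.ExactExponentOfExceptions
import Pool.Agent.X123.MT.Targets

/-!
# The exceptions to the `n`-term abc conjecture near almost all targets

For every `n ≥ 3` there is `M₀ > 1 / n` such that for almost all targets, all `M` between `1 / n` and
`M₀` and all `ε > 0`, the proximity to the targets of the coprime `n`-tuples `x` with sum zero, without
vanishing proper subsums, which violate `max |x_i| ≤ rad (x_1 ⋯ x_n) ^ M` is at most
`(n (1 - M) + ε) log max |x_i| + C`. For example for almost all `ξ` in `ℝ ^ (n - 2)`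
`∏_{i ≤ n - 2} min (1, |ξ_i - x_i / x_n|) ≥ c H ^ (- n (1 - M) - ε)` for all exceptions `x`, while the
general bound, for all tuples, has the exponent `- (n - 1)`; here `n (1 - M) < n - 1` if `M > 1 / n`.
-/

set_option autoImplicit false

open MeasureTheory

namespace Pool.Agent.Results.MP_a95293_nt.ExceptionsNearTargets

open ExactExponentOfExceptions (Admissible rad height Tuples Exceptions ne_zero abs_le_height
  finite_tuples)
open Pool.Agent.X123.MT

lemma rad_pos (a : ℤ) : (1 : ℝ) ≤ (rad a : ℝ) := by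
  have h : 0 < rad a := Finset.prod_pos fun p hp => (Nat.prime_of_mem_primeFactors hp).pos
  exact_mod_cast h

lemma rad_le {a : ℤ} (h : a ≠ 0) : rad a ≤ a.natAbs :=
  Nat.le_of_dvd (Int.natAbs_pos.2 h) (Nat.prod_primeFactors_dvd _)

lemma height_pos {n : ℕ} (hn : 3 ≤ n) {x : Fin n → ℤ} (hx : Admissible x) :
    (1 : ℝ) ≤ (height x : ℝ) := by
  have h1 := abs_le_height x ⟨0, by omega⟩
  have h2 : 0 < (x ⟨0, by omega⟩).natAbs := Int.natAbs_pos.2 (ne_zero hn hx _)
  have h3 : 1 ≤ height x := by omega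
  exact_mod_cast h3

lemma cnt (n : ℕ) (hn : 3 ≤ n) : ∃ M₀ : ℝ, (1 : ℝ) / n < M₀ ∧ M₀ ≤ 1 ∧ ∀ M : ℝ, (1 : ℝ) / n ≤ M →
    M ≤ M₀ → Cnt {x : Fin n → ℤ | Admissible x ∧ (rad (∏ i, x i) : ℝ) ^ M < height x}
      (fun x => Real.log (height x : ℝ)) (n * (1 - M)) := by
  have hn0 : (0 : ℝ) < n := by
    have : 0 < n := by omega
    exact_mod_cast this
  have hn3 : (3 : ℝ) ≤ n := by exact_mod_cast hn
  have hA : (1 : ℝ) / n < 1 := by
    rw [div_lt_one hn0]; linarith
  obtain ⟨M₀, hM₀, hmain⟩ := (ExactExponentOfExceptions.result n hn 1 hA).2.2.2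
  refine ⟨min M₀ 1, lt_min hM₀ hA, min_le_right _ _, fun M hM1 hM2 δ hδ => ?_⟩
  have hM3 : M ≤ M₀ := hM2.trans (min_le_left _ _)
  have hM4 : M ≤ 1 := hM2.trans (min_le_right _ _)
  obtain ⟨X₀, hX₀⟩ := hmain (δ / n) (by positivity)
  obtain ⟨t₀, ht₀⟩ : ∃ t₀ : ℝ, t₀ = Real.log (max X₀ 1) / n := ⟨_, rfl⟩
  have hmax : (1 : ℝ) ≤ max X₀ 1 := le_max_right _ _
  have ht₀0 : 0 ≤ t₀ := by
    rw [ht₀]
    exact div_nonneg (Real.log_nonneg hmax) hn0.le
  -- the bound for `t ≥ t₀`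
  have key : ∀ t : ℝ, t₀ ≤ t → {x | x ∈ {x : Fin n → ℤ | Admissible x ∧
      (rad (∏ i, x i) : ℝ) ^ M < height x} ∧ Real.log (height x : ℝ) ≤ t}.Finite ∧
      ({x | x ∈ {x : Fin n → ℤ | Admissible x ∧
      (rad (∏ i, x i) : ℝ) ^ M < height x} ∧ Real.log (height x : ℝ) ≤ t}.ncard : ℝ) ≤
        Real.exp ((n * (1 - M) + δ) * t) := by
    intro t ht
    have ht0 : 0 ≤ t := ht₀0.trans ht
    have hX : X₀ ≤ Real.exp (n * t) := by
      have h1 : Real.log (max X₀ 1) ≤ n * t := by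
        rw [ht₀, div_le_iff₀ hn0] at ht
        linarith
      have h2 := (Real.log_le_iff_le_exp (lt_of_lt_of_le one_pos hmax)).1 h1
      exact (le_max_left _ _).trans h2
    have hcard := (hX₀ _ hX M hM1 hM3).2
    have hfin : (Exceptions n 1 M (Real.exp (n * t))).Finite :=
      (finite_tuples n 1 _).subset fun x hx => hx.1
    have hsub : {x | x ∈ {x : Fin n → ℤ | Admissible x ∧
        (rad (∏ i, x i) : ℝ) ^ M < height x} ∧ Real.log (height x : ℝ) ≤ t} ⊆
        Exceptions n 1 M (Real.exp (n * t)) := by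
      rintro x ⟨⟨hx1, hx2⟩, hx3⟩
      have hH := height_pos hn hx1
      have hHt : (height x : ℝ) ≤ Real.exp t :=
        (Real.log_le_iff_le_exp (lt_of_lt_of_le one_pos hH)).1 hx3
      refine ⟨⟨hx1, ?_, ?_⟩, hx2⟩
      · rw [Real.rpow_one]
        refine hHt.trans (Real.exp_le_exp.2 ?_)
        nlinarith
      · calc ∏ i, (rad (x i) : ℝ) ≤ ∏ _i : Fin n, (height x : ℝ) := by
              refine Finset.prod_le_prod (fun i _ => Nat.cast_nonneg _) fun i _ => ?_
              exact_mod_cast (rad_le (ne_zero hn hx1 i)).trans (abs_le_height x i)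
          _ = (height x : ℝ) ^ n := by
              rw [Finset.prod_const, Finset.card_univ, Fintype.card_fin]
          _ ≤ (Real.exp t) ^ n := pow_le_pow_left₀ (by linarith) hHt n
          _ = Real.exp (n * t) := by rw [← Real.exp_nat_mul]
    refine ⟨hfin.subset hsub, ?_⟩
    refine (Nat.cast_le.2 (Set.ncard_le_ncard hsub hfin)).trans (hcard.trans (le_of_eq ?_))
    rw [← Real.exp_mul]
    congr 1
    field_simp
  have he : 0 ≤ (n : ℝ) * (1 - M) + δ := by
    have : 0 ≤ (n : ℝ) * (1 - M) := mul_nonneg hn0.le (by linarith)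
    linarith
  refine ⟨Real.exp ((n * (1 - M) + δ) * t₀), fun t ht => ?_⟩
  rcases le_or_gt t₀ t with h | h
  · refine ⟨(key t h).1, (key t h).2.trans ?_⟩
    refine le_mul_of_one_le_left (Real.exp_pos _).le (Real.one_le_exp (by positivity))
  · have hsub : {x | x ∈ {x : Fin n → ℤ | Admissible x ∧
        (rad (∏ i, x i) : ℝ) ^ M < height x} ∧ Real.log (height x : ℝ) ≤ t} ⊆
        {x | x ∈ {x : Fin n → ℤ | Admissible x ∧
        (rad (∏ i, x i) : ℝ) ^ M < height x} ∧ Real.log (height x : ℝ) ≤ t₀} :=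
      fun x hx => ⟨hx.1, hx.2.trans h.le⟩
    obtain ⟨h1, h2⟩ := key t₀ le_rfl
    refine ⟨h1.subset hsub, ?_⟩
    refine (Nat.cast_le.2 (Set.ncard_le_ncard hsub h1)).trans (h2.trans ?_)
    exact le_mul_of_one_le_right (Real.exp_pos _).le (Real.one_le_exp (by positivity))

/-- **Theorem.** Let `n = m + 2 ≥ 3`. There is `M₀ > 1 / n` with the following properties. (1) For
almost all targets, in the sense of `AlmostAllTargets`, all `M` with `1 / n ≤ M ≤ M₀` and all `ε > 0`
there is `C` such that the proximity to the targets of every admissible `n`-tuple `x` with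
`max |x_i| > rad (x_1 ⋯ x_n) ^ M` is at most `(n (1 - M) + ε) log max |x_i| + C`. (2) This applies to the
point `(x_1 / x_n, …, x_(n-2) / x_n)` and almost all `ξ` in `ℝ ^ (n - 2)`. -/
theorem result (m : ℕ) (hm : 1 ≤ m) : ∃ M₀ : ℝ, (1 : ℝ) / ((m + 2 : ℕ) : ℝ) < M₀ ∧
    AlmostAllTargets (fun L : (Fin (m + 2) → ℤ) → ℝ => ∀ M : ℝ, (1 : ℝ) / ((m + 2 : ℕ) : ℝ) ≤ M →
      M ≤ M₀ → ∀ ε : ℝ, 0 < ε → ∃ C : ℝ, ∀ x : Fin (m + 2) → ℤ, Admissible x →
        (rad (∏ i, x i) : ℝ) ^ M < height x →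
          L x ≤ (((m + 2 : ℕ) : ℝ) * (1 - M) + ε) * Real.log (height x : ℝ) + C) ∧
    ∀ᵐ ξ : Fin m → ℝ, ∀ M : ℝ, (1 : ℝ) / ((m + 2 : ℕ) : ℝ) ≤ M → M ≤ M₀ → ∀ ε : ℝ, 0 < ε →
      ∃ C : ℝ, ∀ x : Fin (m + 2) → ℤ, Admissible x → (rad (∏ i, x i) : ℝ) ^ M < height x →
        ∑ i : Fin m, max 0 (Real.log (1 / |ξ i - (x (Fin.castAdd 2 i) : ℝ) / x (Fin.last (m + 1))|)) ≤
          (((m + 2 : ℕ) : ℝ) * (1 - M) + ε) * Real.log (height x : ℝ) + C := by
  have hn : 3 ≤ m + 2 := by omega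
  obtain ⟨M₀, hM₀, hM₁, hcnt⟩ := cnt (m + 2) hn
  obtain ⟨N, hN⟩ : ∃ N : ℝ, N = ((m + 2 : ℕ) : ℝ) := ⟨_, rfl⟩
  have hN0 : 0 < N := by rw [hN]; positivity
  rw [← hN] at hM₀ hcnt ⊢
  refine ⟨M₀, hM₀, ?_⟩
  have main : AlmostAllTargets (fun L : (Fin (m + 2) → ℤ) → ℝ => ∀ M : ℝ, (1 : ℝ) / N ≤ M →
      M ≤ M₀ → ∀ ε : ℝ, 0 < ε → ∃ C : ℝ, ∀ x : Fin (m + 2) → ℤ, Admissible x →
        (rad (∏ i, x i) : ℝ) ^ M < height x →
          L x ≤ (N * (1 - M) + ε) * Real.log (height x : ℝ) + C) := by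
    refine almostAllTargets_of _ fun Y _ μ L hL => ?_
    obtain ⟨D, hD⟩ : ∃ D : ℝ, D = M₀ - 1 / N := ⟨_, rfl⟩
    have hD0 : 0 < D := by rw [hD]; linarith
    have h1 : ∀ᵐ y ∂μ, ∀ k j : ℕ, j ≤ k → ∀ ε : ℝ, 0 < ε → ∃ C : ℝ,
        ∀ x ∈ {x : Fin (m + 2) → ℤ | Admissible x ∧
          (rad (∏ i, x i) : ℝ) ^ (1 / N + D * j / k) < height x},
          L x y ≤ (N * (1 - (1 / N + D * j / k)) + ε) * Real.log (height x : ℝ) + C := by
      rw [ae_all_iff]
      intro k
      rw [ae_all_iff]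
      intro j
      by_cases hj : j ≤ k
      · have h2 : D * j / k ≤ D := by
          rcases Nat.eq_zero_or_pos k with h | h
          · subst h
            simp [hD0.le]
          · have hk : (0 : ℝ) < k := by exact_mod_cast h
            rw [div_le_iff₀ hk]
            exact mul_le_mul_of_nonneg_left (by exact_mod_cast hj) hD0.le
        have h3 : 0 ≤ D * j / k := by positivity
        have h4 : 1 / N + D * j / k ≤ M₀ := by rw [hD] at h2 ⊢; linarith
        have h5 := hL _ (fun x => Real.log (height x : ℝ)) (N * (1 - (1 / N + D * j / k)))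
          (fun x _ => Real.log_natCast_nonneg _) (mul_nonneg hN0.le (by linarith))
          (hcnt (1 / N + D * j / k) (by linarith) h4)
        filter_upwards [h5] with y hy _ using hy
      · exact Filter.Eventually.of_forall fun y h => absurd h hj
    filter_upwards [h1] with y hy M hM1 hM2 ε hε
    -- a close smaller `M`
    obtain ⟨k, hk⟩ : ∃ k : ℕ, N * D / (ε / 2) < k := exists_nat_gt _
    have hk0 : (0 : ℝ) < k := lt_trans (by positivity) hk
    obtain ⟨j, hj⟩ : ∃ j : ℕ, j = ⌊(M - 1 / N) / D * k⌋₊ := ⟨_, rfl⟩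
    have h0 : 0 ≤ (M - 1 / N) / D * k := by
      have : 0 ≤ M - 1 / N := by linarith
      positivity
    have hj1 : (j : ℝ) ≤ (M - 1 / N) / D * k := by rw [hj]; exact Nat.floor_le h0
    have hj2 : (M - 1 / N) / D * k < j + 1 := by rw [hj]; exact Nat.lt_floor_add_one _
    have hjk : j ≤ k := by
      have h2 : (M - 1 / N) / D ≤ 1 := by
        rw [div_le_one hD0, hD]; linarith
      have h3 : (j : ℝ) ≤ k := hj1.trans (by nlinarith)
      exact_mod_cast h3
    obtain ⟨C, hC⟩ := hy k j hjk (ε / 2) (by positivity)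
    have hM' : D * j / k ≤ M - 1 / N := by
      rw [div_le_iff₀ hk0]
      have h2 := mul_le_mul_of_nonneg_left hj1 hD0.le
      have h3 : D * ((M - 1 / N) / D * k) = (M - 1 / N) * k := by field_simp
      linarith
    have hM'' : M - 1 / N ≤ D * j / k + D / k := by
      rw [← add_div, le_div_iff₀ hk0]
      have h2 := mul_le_mul_of_nonneg_left hj2.le hD0.le
      have h3 : D * ((M - 1 / N) / D * k) = (M - 1 / N) * k := by field_simp
      linarith
    have hND : N * (D / k) < ε / 2 := by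
      rw [div_lt_iff₀ (by positivity)] at hk
      rw [← mul_div_assoc, div_lt_iff₀ hk0]
      linarith
    refine ⟨C, fun x hx hxM => ?_⟩
    have hr := rad_pos (∏ i, x i)
    have h6 := hC x ⟨hx, lt_of_le_of_lt
      (Real.rpow_le_rpow_of_exponent_le hr (by linarith)) hxM⟩
    refine h6.trans ?_
    have hlog : 0 ≤ Real.log (height x : ℝ) := Real.log_natCast_nonneg _
    have h7 : N * (1 - (1 / N + D * j / k)) + ε / 2 ≤ N * (1 - M) + ε := by
      have h8 := mul_le_mul_of_nonneg_left hM'' hN0.le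
      have h9 : N * (D * j / k + D / k) = N * (D * j / k) + N * (D / k) := by ring
      have h10 : N * (1 - (1 / N + D * j / k)) = N * (1 - M) + N * (M - 1 / N) - N * (D * j / k) := by
        ring
      linarith
    have := mul_le_mul_of_nonneg_right h7 hlog
    linarith
  exact ⟨main, real_targets _ main m fun i x => (x (Fin.castAdd 2 i) : ℝ) / x (Fin.last (m + 1))⟩

end Pool.Agent.Results.MP_a95293_nt.ExceptionsNearTargets
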