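import Mathlib
import Pool.Agent.X286.Win.Gen
import Pool.Agent.Results.MP_a95293_nt.FewExceptions

/-!
# The n-term abc inequality without exceptions, in windows

For almost all real numbers `a > 0` (and outside a set of small Hausdorff dimension) there is one
exponent `M` such that for every `n ≥ 3` the inequality `max |x_j| ≤ rad(x_1 ⋯ x_n) ^ M` holds for
ALL admissible `n`-tuples whose height `max |x_j|` is in the windows
`|max |x_j| - a v k| ≤ (v k) ^ θ`, for all but finitely many `k`.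
-/

set_option autoImplicit false

namespace Pool.Agent.Results.MP_a95293_nt.NoExceptionsInWindows

open MeasureTheory Filter Topology Finset

/-- the exponent of convergence of the sequence `v` is at most `τ` -/
def ExpLe (v : ℕ → ℝ) (τ : ℝ) : Prop := ∀ t : ℝ, τ < t → Summable (fun n : ℕ => (v n) ^ (-t))

/-- An admissible `n`-tuple: coprime integers with sum zero and no vanishing proper sub-sum. -/
def Admissible {n : ℕ} (x : Fin n → ℤ) : Prop :=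
  Finset.univ.gcd x = 1 ∧ ∑ i, x i = 0 ∧
    ∀ I : Finset (Fin n), I.Nonempty → I ≠ Finset.univ → ∑ i ∈ I, x i ≠ 0

/-- The radical of `x_1 ⋯ x_n`: the product of the primes dividing it. -/
def rad {n : ℕ} (x : Fin n → ℤ) : ℕ := ∏ p ∈ (∏ i, x i).natAbs.primeFactors, p

/-- The height: the largest `|x_j|`. -/
def height {n : ℕ} (x : Fin n → ℤ) : ℕ := univ.sup fun i => (x i).natAbs

/-- the violations of the inequality with exponent `M` -/
def Ex (n : ℕ) (M : ℝ) : Set (Fin n → ℤ) :=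
  {x | Admissible x ∧ ((rad x : ℕ) : ℝ) ^ M < (height x : ℝ)}

theorem height_le {n : ℕ} (x : Fin n → ℤ) {B : ℝ} (hB : 0 ≤ B) :
    (height x : ℝ) ≤ B ↔ ∀ i, (|x i| : ℝ) ≤ B := by
  rw [← Nat.le_floor_iff hB]
  unfold height
  rw [Finset.sup_le_iff]
  constructor
  · intro h i
    have h1 := (Nat.le_floor_iff hB).1 (h i (mem_univ i))
    rwa [Nat.cast_natAbs, Int.cast_abs] at h1
  · intro h i _
    rw [Nat.le_floor_iff hB, Nat.cast_natAbs, Int.cast_abs]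
    exact h i

theorem ex_eq {n : ℕ} (hn : 3 ≤ n) (M : ℝ) {B : ℝ} (hB : 0 ≤ B) :
    {x | x ∈ Ex n M ∧ (height x : ℝ) ≤ B} = FewExceptions.exceptions n M B := by
  ext x
  have hv : ((rad x : ℕ) : ℝ) ^ M < (height x : ℝ) ↔ ∃ i, ((rad x : ℕ) : ℝ) ^ M < (|x i| : ℝ) := by
    constructor
    · intro h
      have hne : (univ : Finset (Fin n)).Nonempty := ⟨⟨0, by omega⟩, mem_univ _⟩
      obtain ⟨i, -, hi⟩ := Finset.exists_mem_eq_sup univ hne fun i => (x i).natAbs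
      refine ⟨i, ?_⟩
      unfold height at h
      rw [hi, Nat.cast_natAbs, Int.cast_abs] at h
      exact h
    · rintro ⟨i, hi⟩
      refine hi.trans_le ?_
      have h1 : (x i).natAbs ≤ height x := Finset.le_sup (f := fun i => (x i).natAbs) (mem_univ i)
      have h2 : (((x i).natAbs : ℕ) : ℝ) ≤ (height x : ℝ) := by exact_mod_cast h1
      rwa [Nat.cast_natAbs, Int.cast_abs] at h2
  constructor
  · rintro ⟨⟨h1, h2⟩, h3⟩
    exact ⟨h1, (height_le x hB).1 h3, hv.1 h2⟩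
  · rintro ⟨h1, h3, h2⟩
    exact ⟨⟨h1, hv.2 h2⟩, (height_le x hB).2 h3⟩

theorem sparse {n : ℕ} (hn : 3 ≤ n) {M : ℝ} (hM : 0 < M) :
    Pool.Agent.X286.Win.Sparse (Ex n M) (fun x => (height x : ℝ))
      ((1 - 1 / (n.choose (n / 2) : ℝ)) / M) := by
  intro ε hε
  obtain ⟨⟨C, hC⟩, -⟩ := FewExceptions.result n hn M ε hM hε
  refine ⟨C, fun X hX => ?_⟩
  rw [ex_eq hn M (by linarith)]
  exact hC X hX

theorem sparse_cop {n : ℕ} (hn : 3 ≤ n) {M : ℝ} (hM : 0 < M) :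
    Pool.Agent.X286.Win.Sparse {x | x ∈ Ex n M ∧ ∀ i j, i ≠ j → IsCoprime (x i) (x j)}
      (fun x => (height x : ℝ)) ((1 - 1 / (n : ℝ)) / M) := by
  intro ε hε
  obtain ⟨⟨C', hC'⟩, ⟨C, hC⟩⟩ := FewExceptions.result n hn M ε hM hε
  refine ⟨C, fun X hX => ?_⟩
  have hset : {x | x ∈ {x | x ∈ Ex n M ∧ ∀ i j, i ≠ j → IsCoprime (x i) (x j)} ∧
      (height x : ℝ) ≤ X} =
      {x ∈ FewExceptions.exceptions n M X | ∀ i j, i ≠ j → IsCoprime (x i) (x j)} := by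
    rw [← ex_eq hn M (by linarith)]
    ext x
    constructor
    · rintro ⟨⟨h1, h2⟩, h3⟩
      exact ⟨⟨h1, h3⟩, h2⟩
    · rintro ⟨⟨h1, h3⟩, h2⟩
      exact ⟨⟨h1, h2⟩, h3⟩
  rw [hset]
  exact ⟨(hC' X hX).1.subset fun x hx => hx.1, hC X hX⟩

theorem choose_one {n : ℕ} : (0 : ℝ) ≤ 1 - 1 / (n.choose (n / 2) : ℝ) ∧
    1 - 1 / (n.choose (n / 2) : ℝ) ≤ 1 := by
  have h1 : 1 ≤ n.choose (n / 2) := Nat.choose_pos (Nat.div_le_self _ _)
  have h2 : (1 : ℝ) ≤ (n.choose (n / 2) : ℝ) := by exact_mod_cast h1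
  constructor
  · rw [sub_nonneg, div_le_one (by linarith)]
    exact h2
  · have : (0 : ℝ) ≤ 1 / (n.choose (n / 2) : ℝ) := by positivity
    linarith

/-- all lengths at once -/
theorem sparse_all (i : {n : ℕ // 3 ≤ n}) {M : ℝ} (hM : 0 < M) :
    Pool.Agent.X286.Win.Sparse (Ex i.1 M) (fun x => (height x : ℝ)) (1 / M) :=
  Pool.Agent.X286.Win.sparse_mono (div_le_div_of_nonneg_right choose_one.2 hM.le) (sparse i.2 hM)

/-- Let `v k ≥ 1` have exponent of convergence at most `τ ≥ 0`, and let `θ < 1`.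
(1) For `n ≥ 3` and `M > 0` there is a set `E` of Hausdorff dimension at most
`((1 - 1/binom(n, ⌊n/2⌋)) / M + τ) / (1 - θ)` such that for all `a > 0` outside `E`, for all but
finitely many `k`, all admissible `n`-tuples with `|max |x_j| - a v k| ≤ (v k) ^ θ` satisfy
`max |x_j| ≤ rad(x_1 ⋯ x_n) ^ M`.
(2) For pairwise coprime admissible tuples the dimension is at most
`((1 - 1/n) / M + τ) / (1 - θ)`.
(3) For `M > 0` there is one set `E` of dimension at most `(1 / M + τ) / (1 - θ)` that serves for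
all `n ≥ 3`.
(4) There is a set `E` of dimension at most `τ / (1 - θ)` such that for all `a > 0` outside `E`
there is ONE exponent `M` such that for all `n ≥ 3`, for all but finitely many `k`, all admissible
`n`-tuples with `|max |x_j| - a v k| ≤ (v k) ^ θ` satisfy `max |x_j| ≤ rad(x_1 ⋯ x_n) ^ M`.
(5), (6) The powers of `k + 1` and the geometric progressions are examples of `v`. -/
theorem result :
    (∀ (v : ℕ → ℝ) (τ θ : ℝ), (∀ n, 1 ≤ v n) → 0 ≤ τ → ExpLe v τ → θ < 1 →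
      ∀ (n : ℕ) (M : ℝ), 3 ≤ n → 0 < M →
      (∃ E : Set ℝ,
        dimH E ≤ ENNReal.ofReal (((1 - 1 / (n.choose (n / 2) : ℝ)) / M + τ) / (1 - θ)) ∧
        ∀ a : ℝ, 0 < a → a ∉ E → ∃ k₀ : ℕ, ∀ k : ℕ, k₀ ≤ k → ∀ x : Fin n → ℤ, Admissible x →
          |(height x : ℝ) - a * v k| ≤ (v k) ^ θ → (height x : ℝ) ≤ (rad x : ℝ) ^ M) ∧
      ∃ E : Set ℝ, dimH E ≤ ENNReal.ofReal (((1 - 1 / (n : ℝ)) / M + τ) / (1 - θ)) ∧
        ∀ a : ℝ, 0 < a → a ∉ E → ∃ k₀ : ℕ, ∀ k : ℕ, k₀ ≤ k → ∀ x : Fin n → ℤ, Admissible x →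
          (∀ i j, i ≠ j → IsCoprime (x i) (x j)) →
          |(height x : ℝ) - a * v k| ≤ (v k) ^ θ → (height x : ℝ) ≤ (rad x : ℝ) ^ M) ∧
    (∀ (v : ℕ → ℝ) (τ θ M : ℝ), (∀ n, 1 ≤ v n) → 0 ≤ τ → ExpLe v τ → θ < 1 → 0 < M →
      ∃ E : Set ℝ, dimH E ≤ ENNReal.ofReal ((1 / M + τ) / (1 - θ)) ∧
        ∀ a : ℝ, 0 < a → a ∉ E → ∀ n : ℕ, 3 ≤ n → ∃ k₀ : ℕ, ∀ k : ℕ, k₀ ≤ k →
          ∀ x : Fin n → ℤ, Admissible x →
          |(height x : ℝ) - a * v k| ≤ (v k) ^ θ → (height x : ℝ) ≤ (rad x : ℝ) ^ M) ∧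
    (∀ (v : ℕ → ℝ) (τ θ : ℝ), (∀ n, 1 ≤ v n) → 0 ≤ τ → ExpLe v τ → θ < 1 →
      ∃ E : Set ℝ, dimH E ≤ ENNReal.ofReal (τ / (1 - θ)) ∧
        ∀ a : ℝ, 0 < a → a ∉ E → ∃ M : ℝ, 0 < M ∧ ∀ n : ℕ, 3 ≤ n → ∃ k₀ : ℕ, ∀ k : ℕ, k₀ ≤ k →
          ∀ x : Fin n → ℤ, Admissible x →
          |(height x : ℝ) - a * v k| ≤ (v k) ^ θ → (height x : ℝ) ≤ (rad x : ℝ) ^ M) ∧
    (∀ b : ℝ, 0 < b → ExpLe (fun n : ℕ => ((n : ℝ) + 1) ^ b) (1 / b)) ∧
    (∀ b : ℝ, 1 < b → ExpLe (fun n : ℕ => b ^ n) 0) := by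
  refine ⟨?_, ?_, ?_, fun b hb => Pool.Agent.Y854.GM.expLe_pow b hb,
    fun b hb => Pool.Agent.Y854.GM.expLe_geom b hb⟩
  · intro v τ θ hv hτ hE hθ n M hn hM
    constructor
    · obtain ⟨E, h1, h2⟩ := Pool.Agent.Y854.GM.windows (Ex n M) (fun x => (height x : ℝ))
        hv hτ hE (div_nonneg choose_one.1 hM.le) hθ (sparse hn hM)
      refine ⟨E, h1, fun a ha haE => ?_⟩
      obtain ⟨k₀, hk⟩ := h2 a ha haE
      refine ⟨k₀, fun k hk0 x hx hw => ?_⟩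
      by_contra hcon
      push Not at hcon
      exact absurd (hk k hk0 x ⟨hx, hcon⟩) (not_lt.2 hw)
    · have hn1 : (0 : ℝ) ≤ 1 - 1 / (n : ℝ) := by
        have : (1 : ℝ) ≤ n := by exact_mod_cast (by omega : 1 ≤ n)
        rw [sub_nonneg, div_le_one (by linarith)]
        exact this
      obtain ⟨E, h1, h2⟩ := Pool.Agent.Y854.GM.windows
        {x | x ∈ Ex n M ∧ ∀ i j, i ≠ j → IsCoprime (x i) (x j)} (fun x => (height x : ℝ))
        hv hτ hE (div_nonneg hn1 hM.le) hθ (sparse_cop hn hM)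
      refine ⟨E, h1, fun a ha haE => ?_⟩
      obtain ⟨k₀, hk⟩ := h2 a ha haE
      refine ⟨k₀, fun k hk0 x hx hc hw => ?_⟩
      by_contra hcon
      push Not at hcon
      exact absurd (hk k hk0 x ⟨⟨hx, hcon⟩, hc⟩) (not_lt.2 hw)
  · intro v τ θ M hv hτ hE hθ hM
    obtain ⟨E, h1, h2⟩ := Pool.Agent.X286.Win.family₂ (fun i : {n : ℕ // 3 ≤ n} => Ex i.1 M)
      (fun i x => (height x : ℝ)) (by positivity) (fun i => sparse_all i hM) hv hτ hE hθ
    refine ⟨E, h1, fun a ha haE n hn => ?_⟩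
    obtain ⟨k₀, hk⟩ := h2 a ha haE ⟨n, hn⟩
    refine ⟨k₀, fun k hk0 x hx hw => ?_⟩
    by_contra hcon
    push Not at hcon
    exact absurd (hk k hk0 x ⟨hx, hcon⟩) (not_lt.2 hw)
  · intro v τ θ hv hτ hE hθ
    obtain ⟨E, h1, h2⟩ := Pool.Agent.X286.Win.some_member₂
      (fun (j : ℕ) (i : {n : ℕ // 3 ≤ n}) => Ex i.1 ((j : ℝ) + 1))
      (fun i x => (height x : ℝ)) (s := fun j : ℕ => 1 / ((j : ℝ) + 1)) (fun j => by positivity)
      tendsto_one_div_add_atTop_nhds_zero_nat (fun j i => sparse_all i (by positivity)) hv hτ hE hθ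
    refine ⟨E, h1, fun a ha haE => ?_⟩
    obtain ⟨j, hj⟩ := h2 a ha haE
    refine ⟨(j : ℝ) + 1, by positivity, fun n hn => ?_⟩
    obtain ⟨k₀, hk⟩ := hj ⟨n, hn⟩
    refine ⟨k₀, fun k hk0 x hx hw => ?_⟩
    by_contra hcon
    push Not at hcon
    exact absurd (hk k hk0 x ⟨hx, hcon⟩) (not_lt.2 hw)

end Pool.Agent.Results.MP_a95293_nt.NoExceptionsInWindows
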