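import Pool.Agent.X100.Nt.Q

/-!
# The n-term abc inequality on rational curves: tuples of any height, counted by their radical

A rational curve in the space of the `n`-tuples up to proportionality is given by `n` binary forms
of degree `D` with integral coefficients without a common zero. All admissible `n`-tuples on the
curve, of whatever height, are counted by their radical `rad (x_1 ⋯ x_n)`. The zeros of the forms
need not be rational.
-/

set_option autoImplicit false

namespace Pool.Agent.Results.MP_a95293_nt.RationalCurvesAllHeights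

open Finset Polynomial

/-- the radical: the product of the primes dividing `m` -/
def radical (m : ℤ) : ℕ := ∏ p ∈ m.natAbs.primeFactors, p

/-- the admissible tuples of the problem: coprime entries with sum zero and without vanishing proper
partial sums -/
def Admissible {n : ℕ} (x : Fin n → ℤ) : Prop :=
  (∀ g : ℤ, (∀ j, g ∣ x j) → IsUnit g) ∧ ∑ j, x j = 0 ∧
    ∀ S : Finset (Fin n), S.Nonempty → S ≠ univ → ∑ j ∈ S, x j ≠ 0

/-- the value at `(s, t)` of the binary form `∑ k, f_k s ^ k t ^ (D - k)` of degree `D` -/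
def value (f : ℤ[X]) (D : ℕ) (s t : ℤ) : ℤ :=
  ∑ k ∈ range (D + 1), f.coeff k * s ^ k * t ^ (D - k)

/-- the polynomials `P_j`, viewed as binary forms of degree `D ≥ 1`, have no common zero on the
projective line, and their product, a form of degree `n D`, is divisible by a form without multiple
factors which is the product of the forms `f_i` of degrees `d_i ≥ 1` (a constant `f_i` with
`d_i = 1` is the linear form that vanishes at infinity) -/
structure IsCurve {n m : ℕ} (P : Fin n → ℤ[X]) (D : ℕ) (f : Fin m → ℤ[X]) (d : Fin m → ℕ) :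
    Prop where
  pos : 1 ≤ D
  degree : ∀ j, (P j).natDegree ≤ D
  infinity : ∃ j, (P j).natDegree = D
  zeros : ∀ z : ℂ, ∃ j, aeval z (P j) ≠ 0
  factors : ∀ i, (f i).natDegree ≤ d i ∧ 1 ≤ d i
  squarefree : Squarefree ((∏ i, f i).map (Int.castRingHom ℚ))
  simple : ∑ i, d i ≤ (∏ i, f i).natDegree + 1
  divides : ∃ G : ℤ[X], (∏ i, f i) * G = ∏ j, P j ∧ G.natDegree + ∑ i, d i ≤ n * D

/-- the admissible tuples on the curve with radical at most `R`; there is no condition on the
height -/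
def Tuples {n : ℕ} (P : Fin n → ℤ[X]) (D : ℕ) (R : ℝ) : Set (Fin n → ℤ) :=
  {x | Admissible x ∧
    (∃ s t : ℤ, IsCoprime s t ∧ ∀ i j, x i * value (P j) D s t = x j * value (P i) D s t) ∧
    (radical (∏ j, x j) : ℝ) ≤ R}

/-- those which violate `max |x_j| ≤ rad (x_1 ⋯ x_n) ^ M` -/
def Violating {n : ℕ} (P : Fin n → ℤ[X]) (D : ℕ) (M R : ℝ) : Set (Fin n → ℤ) :=
  {x | x ∈ Tuples P D R ∧ ∃ j, (radical (∏ j, x j) : ℝ) ^ M < |(x j : ℝ)|}

/-- the number of the factors, those of degree at least three counted twice -/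
def weight {m : ℕ} (d : Fin m → ℕ) : ℕ := ∑ i, if d i ≤ 2 then 1 else 2

theorem ne_zero {n : ℕ} (hn : 2 ≤ n) {x : Fin n → ℤ} (h : Admissible x) : ∏ j, x j ≠ 0 := by
  refine prod_ne_zero_iff.2 fun j _ => ?_
  have h1 := h.2.2 {j} (singleton_nonempty j) (by
    intro h0
    have h2 := congrArg Finset.card h0
    rw [card_singleton, card_univ, Fintype.card_fin] at h2
    omega)
  simpa using h1

/-- the two conclusions from a bound for the tuples -/
theorem both {n : ℕ} (hn : 2 ≤ n) (P : Fin n → ℤ[X]) (D : ℕ) {θ : ℝ}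
    (H : ∃ (C : ℝ) (e : ℕ), 0 < C ∧ ∀ R : ℝ, 1 ≤ R → ∀ S : Set (Fin n → ℤ),
      (∀ x ∈ S, (∀ g : ℤ, (∀ j, g ∣ x j) → IsUnit g) ∧ ∏ j, x j ≠ 0 ∧
        (∃ s t : ℤ, IsCoprime s t ∧ ∀ i j, x i * value (P j) D s t = x j * value (P i) D s t) ∧
        ((∏ p ∈ (∏ j, x j).natAbs.primeFactors, p : ℕ) : ℝ) ≤ R) →
      S.Finite ∧ (S.ncard : ℝ) ≤ C * R ^ θ * (1 + Real.log R) ^ e) :
    ∃ (C : ℝ) (e : ℕ), 0 < C ∧ ∀ R : ℝ, 1 ≤ R → (Tuples P D R).Finite ∧
      ((Tuples P D R).ncard : ℝ) ≤ C * R ^ θ * (1 + Real.log R) ^ e ∧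
      ∀ M : ℝ, (Violating P D M R).Finite ∧
        ((Violating P D M R).ncard : ℝ) ≤ C * R ^ θ * (1 + Real.log R) ^ e := by
  obtain ⟨C, e, hC, H⟩ := H
  refine ⟨C, e, hC, fun R hR => ?_⟩
  have h1 : ∀ S ⊆ Tuples P D R, S.Finite ∧ (S.ncard : ℝ) ≤ C * R ^ θ * (1 + Real.log R) ^ e :=
    fun S hS => H R hR S fun x hx => by
      obtain ⟨k1, k2, k3⟩ := hS hx
      exact ⟨k1.1, ne_zero hn k1, k2, k3⟩
  refine ⟨(h1 _ (le_refl _)).1, (h1 _ (le_refl _)).2, fun M => h1 _ fun x hx => hx.1⟩

/-- **The n-term abc inequality on rational curves, tuples of all heights ordered by the radical.**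
Let `P`, `D`, `f`, `d` be as in `IsCurve`, `n ≥ 2`.
(1) If at least three of the `f_i` are linear, there are `C` and `e` such that for all `R ≥ 1` at
most `C R ^ (2 / weight d) (1 + log R) ^ e` admissible tuples on the curve, of whatever height, have
radical at most `R`; in particular, for every `M` at most so many violate `max |x_j| ≤ rad ^ M`.
(2) Let `B_1, …, B_g` be sets of the `f_i` of total degree at least three each, such that every
`f_i` is in at most `c` of them. Then the same holds with the exponent `c / g`. -/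
theorem result :
    (∀ (n m D : ℕ), 2 ≤ n → ∀ (P : Fin n → ℤ[X]) (f : Fin m → ℤ[X]) (d : Fin m → ℕ),
      IsCurve P D f d → 3 ≤ (univ.filter (fun i => d i = 1)).card →
      ∃ (C : ℝ) (e : ℕ), 0 < C ∧ ∀ R : ℝ, 1 ≤ R → (Tuples P D R).Finite ∧
        ((Tuples P D R).ncard : ℝ) ≤
          C * R ^ ((2 : ℝ) / (weight d : ℝ)) * (1 + Real.log R) ^ e ∧
        ∀ M : ℝ, (Violating P D M R).Finite ∧
          ((Violating P D M R).ncard : ℝ) ≤
            C * R ^ ((2 : ℝ) / (weight d : ℝ)) * (1 + Real.log R) ^ e) ∧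
    (∀ (n m D : ℕ), 2 ≤ n → ∀ (P : Fin n → ℤ[X]) (f : Fin m → ℤ[X]) (d : Fin m → ℕ),
      IsCurve P D f d → ∀ (g c : ℕ) (B : Fin g → Finset (Fin m)), 1 ≤ g →
      (∀ b, 3 ≤ ∑ i ∈ B b, d i) → (∀ i, (univ.filter (fun b => i ∈ B b)).card ≤ c) →
      ∃ (C : ℝ) (e : ℕ), 0 < C ∧ ∀ R : ℝ, 1 ≤ R → (Tuples P D R).Finite ∧
        ((Tuples P D R).ncard : ℝ) ≤ C * R ^ ((c : ℝ) / g) * (1 + Real.log R) ^ e ∧
        ∀ M : ℝ, (Violating P D M R).Finite ∧
          ((Violating P D M R).ncard : ℝ) ≤ C * R ^ ((c : ℝ) / g) * (1 + Real.log R) ^ e) := by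
  refine ⟨?_, ?_⟩
  · intro n m D hn P f d h h3
    obtain ⟨G, hG, hGd⟩ := h.divides
    exact both hn P D (X100.Nt.tuples_set P D h.pos h.degree h.infinity h.zeros f d
      (fun i => (h.factors i).1) G hG hGd (X100.Nt.cnt_mixed f d (fun i => (h.factors i).1)
        (fun i => (h.factors i).2) h.squarefree h.simple h3))
  · intro n m D hn P f d h g c B hg hB hc
    obtain ⟨G, hG, hGd⟩ := h.divides
    have hne : Nonempty (Fin g) := Fin.pos_iff_nonempty.1 hg
    have h1 := X100.Nt.cnt_blocks (β := Fin g) f d (fun i => (h.factors i).1) h.squarefree h.simple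
      B hB c hc
    rw [Fintype.card_fin] at h1
    exact both hn P D (X100.Nt.tuples_set P D h.pos h.degree h.infinity h.zeros f d
      (fun i => (h.factors i).1) G hG hGd h1)

end Pool.Agent.Results.MP_a95293_nt.RationalCurvesAllHeights
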