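import Mathlib
import Pool.Agent.X4.VP.Main

/-!
# The n-term abc conjecture: tuples all whose subsums have small radicals

We consider `n + 1` integers `x_1, …, x_{n+1}` with sum zero, `n ≥ 2`, and their subsums
`x_S = ∑_{i ∈ S} x_i` for the nonempty sets `S` of indices at most `n` (the other proper subsums
are the negatives of these). Let real exponents `α_S ≤ 1` be given such that for every nonempty
family `A` of sets the sum of the `1 - α_S`, `S ∈ A`, is smaller than the rank of the indicator
vectors of the sets of `A`. Then there are at least `C X ^ (n - ∑ (1 - α_S))` admissible tuples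
of size `X`, in any given direction, with `rad(x_S) ≤ ε |x_S| ^ α_S` for all `S`. If all `α_S`
are equal to `α` the condition is `(1 - α) (2 ^ n - 1) < n`.
-/

set_option autoImplicit false

namespace Pool.Agent.Results.MP_a95293_nt.SubsumsSmallRadicals

open Finset MvPolynomial

/-- the radical: the product of the primes which divide `m` -/
def rad (m : ℕ) : ℕ := ∏ p ∈ m.primeFactors, p

/-- the subsum of `x_1, …, x_{n+1}` over a set `S` of indices at most `n` -/
def subsum {n : ℕ} (x : Fin (n + 1) → ℤ) (S : Finset (Fin n)) : ℤ := ∑ i ∈ S, x i.castSucc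

/-- the indicator vector of `S` -/
def ind {n : ℕ} (S : Finset (Fin n)) : Fin n → ℚ := fun i => if i ∈ S then 1 else 0

/-- the rank of the indicator vectors of the sets of a family -/
noncomputable def rank {n : ℕ} (A : Finset (Finset (Fin n))) : ℕ :=
  Module.finrank ℚ (Submodule.span ℚ (ind '' (A : Set (Finset (Fin n)))))

/-- the tuples `x` of integers with sum zero and without a common prime factor, with
`|x_i - c_i X| ≤ ρ X` for all `i`, with `F(x) ≠ 0`, without a vanishing proper subsum, and with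
`rad(x_S) ≤ ε |x_S| ^ α_S` for all nonempty sets `S` of indices at most `n` -/
def Tuples {n : ℕ} (α : Finset (Fin n) → ℝ) (ε : ℝ) (F : MvPolynomial (Fin (n + 1)) ℤ)
    (c : Fin (n + 1) → ℝ) (ρ X : ℝ) : Set (Fin (n + 1) → ℤ) :=
  {x | (∀ p : ℕ, p.Prime → ∃ i, ¬ (p : ℤ) ∣ x i) ∧ ∑ i, x i = 0 ∧
    (∀ T : Finset (Fin (n + 1)), T.Nonempty → T ≠ Finset.univ → ∑ i ∈ T, x i ≠ 0) ∧
    (∀ i, |(x i : ℝ) - X * c i| ≤ ρ * X) ∧ eval x F ≠ 0 ∧
    ∀ S : Finset (Fin n), S.Nonempty →
      (rad (subsum x S).natAbs : ℝ) ≤ ε * |(subsum x S : ℝ)| ^ (α S)}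

theorem tuples_finite {n : ℕ} (α : Finset (Fin n) → ℝ) (ε : ℝ)
    (F : MvPolynomial (Fin (n + 1)) ℤ) (c : Fin (n + 1) → ℝ) (ρ X : ℝ) :
    (Tuples α ε F c ρ X).Finite := by
  have h1 : (Set.univ.pi fun l : Fin (n + 1) =>
      Set.Icc ⌈X * c l - ρ * X⌉ ⌊X * c l + ρ * X⌋).Finite :=
    Set.Finite.pi fun l => Set.finite_Icc _ _
  refine h1.subset ?_
  rintro x ⟨-, -, -, h2, -⟩ l -
  have h3 := abs_le.1 (h2 l)
  exact ⟨Int.ceil_le.2 (by linarith [h3.1]), Int.le_floor.2 (by linarith [h3.2])⟩

/-- the coefficients of the subsums as integers -/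
def coef {n : ℕ} (S : Finset (Fin n)) : Fin n → ℤ := fun i => if i ∈ S then 1 else 0

theorem coef_sum {n : ℕ} (S : Finset (Fin n)) (y : Fin n → ℤ) :
    ∑ i, coef S i * y i = ∑ i ∈ S, y i := by
  simp [coef, Finset.sum_ite_mem]

/-- the tuple with the last coordinate determined by the others -/
def ext {n : ℕ} (y : Fin n → ℤ) : Fin (n + 1) → ℤ := Fin.snoc y (-∑ i, y i)

theorem ext_castSucc {n : ℕ} (y : Fin n → ℤ) (i : Fin n) : ext y i.castSucc = y i := by
  simp [ext]

theorem ext_last {n : ℕ} (y : Fin n → ℤ) : ext y (Fin.last n) = -∑ i, y i := by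
  simp [ext]

theorem ext_sum {n : ℕ} (y : Fin n → ℤ) : ∑ i, ext y i = 0 := by
  rw [Fin.sum_univ_castSucc, ext_last]
  simp [ext_castSucc]

theorem ext_inj {n : ℕ} : Function.Injective (ext (n := n)) := by
  intro y z h
  funext i
  rw [← ext_castSucc y i, h, ext_castSucc]

/-- the number of vectors of zeros and ones in a subspace (Odlyzko) -/
theorem card_le_rank {n : ℕ} (A : Finset (Finset (Fin n))) (hA : ∀ S ∈ A, S.Nonempty) :
    A.card + 1 ≤ 2 ^ rank A := by
  classical
  set W : Submodule ℚ (Fin n → ℚ) := Submodule.span ℚ (ind '' (A : Set (Finset (Fin n)))) with hW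
  let φ : Fin n → Module.Dual ℚ W := fun i => (LinearMap.proj i).comp W.subtype
  obtain ⟨b, hb1, hb2, hb3⟩ := exists_linearIndependent ℚ (Set.range φ)
  have hbfin : b.Finite := (Set.finite_range φ).subset hb1
  have : Fintype b := hbfin.fintype
  have hcard : Fintype.card b ≤ rank A := by
    have h1 := hb3.fintype_card_le_finrank
    rwa [Subspace.dual_finrank_eq] at h1
  -- choose indices
  have hidx : ∀ f : b, ∃ i, φ i = f := fun f => hb1 f.2
  choose ι hι using hidx
  -- the map of the sets
  let g : Finset (Fin n) → (b → Bool) := fun S f => decide (ι f ∈ S)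
  have hinj : Set.InjOn g (insert ∅ A : Finset (Finset (Fin n))) := by
    intro S hS T hT hST
    have hSW : ind S ∈ W := by
      rcases Finset.mem_insert.1 (Finset.mem_coe.1 hS) with h | h
      · have : ind S = 0 := by rw [h]; funext i; simp [ind]
        rw [this]; exact W.zero_mem
      · exact Submodule.subset_span ⟨S, h, rfl⟩
    have hTW : ind T ∈ W := by
      rcases Finset.mem_insert.1 (Finset.mem_coe.1 hT) with h | h
      · have : ind T = 0 := by rw [h]; funext i; simp [ind]
        rw [this]; exact W.zero_mem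
      · exact Submodule.subset_span ⟨T, h, rfl⟩
    set w : W := ⟨ind S, hSW⟩ - ⟨ind T, hTW⟩ with hw
    have h1 : ∀ f ∈ b, f w = 0 := by
      intro f hf
      have h2 := congrFun hST ⟨f, hf⟩
      have h3 : φ (ι ⟨f, hf⟩) = f := hι ⟨f, hf⟩
      rw [← h3]
      show ind S (ι ⟨f, hf⟩) - ind T (ι ⟨f, hf⟩) = 0
      have h4 : (ι ⟨f, hf⟩ ∈ S) ↔ (ι ⟨f, hf⟩ ∈ T) := by
        simpa [g] using h2
      unfold ind
      by_cases h5 : ι ⟨f, hf⟩ ∈ T
      · rw [if_pos h5, if_pos (h4.2 h5), sub_self]
      · rw [if_neg h5, if_neg (fun h => h5 (h4.1 h)), sub_self]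
    have h2 : ∀ i, φ i w = 0 := by
      intro i
      have h3 : φ i ∈ Submodule.span ℚ b := by
        rw [hb2]
        exact Submodule.subset_span ⟨i, rfl⟩
      have h4 : Submodule.span ℚ b ≤ LinearMap.ker (Module.Dual.eval ℚ W w) := by
        rw [Submodule.span_le]
        intro f hf
        exact h1 f hf
      exact h4 h3
    ext i
    have h3 : ind S i - ind T i = 0 := h2 i
    unfold ind at h3
    by_cases h5 : i ∈ T
    · by_cases h6 : i ∈ S
      · simp [h5, h6]
      · simp [h5, h6] at h3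
    · by_cases h6 : i ∈ S
      · simp [h5, h6] at h3
      · simp [h5, h6]
  have h1 : (insert ∅ A : Finset (Finset (Fin n))).card ≤ Fintype.card (b → Bool) := by
    rw [← Finset.card_image_of_injOn hinj]
    exact Finset.card_le_univ _
  rw [Finset.card_insert_of_notMem (fun h => by simpa using hA ∅ h)] at h1
  rw [Fintype.card_fun, Fintype.card_bool] at h1
  exact h1.trans (Nat.pow_le_pow_right (by norm_num) hcard)

theorem pow_ineq (r : ℕ) (hr : 1 ≤ r) (n : ℕ) (h : r ≤ n) :
    (n : ℝ) * (2 ^ r - 1) ≤ r * (2 ^ n - 1) := by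
  induction n, h using Nat.le_induction with
  | base => exact le_rfl
  | succ n hrn ih =>
    push_cast
    have hn : (1 : ℝ) ≤ n := by exact_mod_cast hr.trans hrn
    have hr' : (1 : ℝ) ≤ r := by exact_mod_cast hr
    have h2r : (2 : ℝ) ≤ 2 ^ r := by
      calc (2 : ℝ) = 2 ^ 1 := by norm_num
        _ ≤ 2 ^ r := pow_le_pow_right₀ (by norm_num) hr
    have h2n : (2 : ℝ) ^ r ≤ 2 ^ n := pow_le_pow_right₀ (by norm_num) hrn
    rw [pow_succ]
    nlinarith

/-- the condition for equal exponents -/
theorem uniform {n : ℕ} (α : ℝ) (hα1 : α ≤ 1) (hα : (1 - α) * (2 ^ n - 1) < n)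
    (A : Finset (Finset (Fin n))) (hA : ∀ S ∈ A, S.Nonempty) (hA0 : A.Nonempty) :
    ∑ _S ∈ A, (1 - α) < rank A := by
  rw [Finset.sum_const, nsmul_eq_mul]
  have h1 := card_le_rank A hA
  have h2 : ((A.card : ℝ)) ≤ 2 ^ rank A - 1 := by
    have : ((A.card + 1 : ℕ) : ℝ) ≤ ((2 ^ rank A : ℕ) : ℝ) := by exact_mod_cast h1
    push_cast at this
    linarith
  have hr1 : 1 ≤ rank A := by
    by_contra hcon
    have h3 : rank A = 0 := by omega
    rw [h3] at h1
    have := hA0.card_pos
    omega
  have hrn : rank A ≤ n := by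
    have := Submodule.finrank_le (Submodule.span ℚ (ind '' (A : Set (Finset (Fin n)))))
    simpa [rank] using this
  have h4 := pow_ineq (rank A) hr1 n hrn
  have hn0 : (0 : ℝ) < n := by exact_mod_cast (by omega : 0 < n)
  have hr0 : (0 : ℝ) < rank A := by exact_mod_cast (by omega : 0 < rank A)
  have h5 : (n : ℝ) * ((1 - α) * (2 ^ rank A - 1)) < n * rank A := by
    calc (n : ℝ) * ((1 - α) * (2 ^ rank A - 1)) = (1 - α) * (n * (2 ^ rank A - 1)) := by ring
      _ ≤ (1 - α) * (rank A * (2 ^ n - 1)) := mul_le_mul_of_nonneg_left h4 (by linarith)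
      _ = rank A * ((1 - α) * (2 ^ n - 1)) := by ring
      _ < rank A * n := mul_lt_mul_of_pos_left hα hr0
      _ = n * rank A := by ring
  have h6 : (1 - α) * (2 ^ rank A - 1) < rank A := lt_of_mul_lt_mul_left h5 hn0.le
  calc (A.card : ℝ) * (1 - α) ≤ (2 ^ rank A - 1) * (1 - α) :=
        mul_le_mul_of_nonneg_right h2 (by linarith)
    _ = (1 - α) * (2 ^ rank A - 1) := by ring
    _ < rank A := h6

/-- **Tuples all whose subsums have small radicals.** -/
theorem result {n : ℕ} (hn : 2 ≤ n) :
    (∀ α : Finset (Fin n) → ℝ, (∀ S, α S ≤ 1) →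
      (∀ A : Finset (Finset (Fin n)), (∀ S ∈ A, S.Nonempty) → A.Nonempty →
        ∑ S ∈ A, (1 - α S) < rank A) →
      ∀ ε : ℝ, 0 < ε → ∀ F : MvPolynomial (Fin (n + 1)) ℤ,
      (∃ y : Fin (n + 1) → ℤ, ∑ i, y i = 0 ∧ eval y F ≠ 0) →
      ∀ c : Fin (n + 1) → ℝ, ∑ i, c i = 0 → ∀ ρ : ℝ, 0 < ρ →
      ∃ C X₀ : ℝ, 0 < C ∧ ∀ X : ℝ, X₀ ≤ X → (Tuples α ε F c ρ X).Finite ∧
        C * X ^ ((n : ℝ) - ∑ S : Finset (Fin n), if S.Nonempty then 1 - α S else 0) ≤
          ((Tuples α ε F c ρ X).ncard : ℝ)) ∧
    ∀ α : ℝ, α ≤ 1 → (1 - α) * (2 ^ n - 1) < n →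
      ∀ A : Finset (Finset (Fin n)), (∀ S ∈ A, S.Nonempty) → A.Nonempty →
        ∑ _S ∈ A, (1 - α) < rank A := by
  classical
  refine ⟨?_, fun α hα1 hα A hA hA0 => uniform α hα1 hα A hA hA0⟩
  intro α hα hrk ε hε F hF c hc ρ hρ
  obtain ⟨k, rfl⟩ : ∃ k, n = k + 2 := ⟨n - 2, by omega⟩
  -- the list of the nonempty sets
  set P : Finset (Finset (Fin (k + 2))) := Finset.univ.filter (fun S => S.Nonempty) with hP
  let e : Fin P.card ≃ P := P.equivFin.symm
  have hne : ∀ j, ((e j : Finset (Fin (k + 2)))).Nonempty := by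
    intro j
    exact (Finset.mem_filter.1 (e j).2).2
  set L : Fin P.card → Fin (k + 2) → ℤ := fun j => coef (e j : Finset (Fin (k + 2))) with hL
  have hL0 : ∀ j, L j ≠ 0 := by
    intro j h
    obtain ⟨i, hi⟩ := hne j
    have := congrFun h i
    simp [hL, coef, hi] at this
  have hrkL : ∀ B : Finset (Fin P.card), B.Nonempty →
      ∑ j ∈ B, (1 - α (e j)) < Pool.Agent.X4.VP.rk L B := by
    intro B hB
    set A : Finset (Finset (Fin (k + 2))) := B.image (fun j => (e j : Finset (Fin (k + 2)))) with hA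
    have hinj : Function.Injective (fun j => (e j : Finset (Fin (k + 2)))) :=
      Subtype.val_injective.comp e.injective
    have h1 := hrk A (by
      intro S hS
      obtain ⟨j, -, rfl⟩ := Finset.mem_image.1 hS
      exact hne j) (hB.image _)
    rw [hA, Finset.sum_image (fun a _ b _ h => hinj h)] at h1
    have h2 : (ind '' ((B.image (fun j => (e j : Finset (Fin (k + 2)))) :
        Finset (Finset (Fin (k + 2)))) : Set (Finset (Fin (k + 2))))) =
        ((fun j => Pool.Agent.X4.VP.qv (L j)) '' (B : Set (Fin P.card))) := by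
      rw [Finset.coe_image, Set.image_image]
      apply Set.image_congr
      intro j _
      funext i
      simp [ind, Pool.Agent.X4.VP.qv, hL, coef]
    have h3 : rank (B.image (fun j => (e j : Finset (Fin (k + 2))))) =
        Pool.Agent.X4.VP.rk L B := by
      unfold rank Pool.Agent.X4.VP.rk
      rw [h2]
    rw [h3] at h1
    exact h1
  -- the polynomial
  set F' : MvPolynomial (Fin (k + 2)) ℤ :=
    bind₁ (fun i : Fin (k + 2 + 1) => (Fin.snoc (α := fun _ => MvPolynomial (Fin (k + 2)) ℤ)
      (fun i => X i) (-∑ i, X i) : Fin (k + 2 + 1) → MvPolynomial (Fin (k + 2)) ℤ) i) F with hF'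
  have hev : ∀ y : Fin (k + 2) → ℤ, eval y F' = eval (ext y) F := by
    intro y
    rw [hF']
    change eval₂Hom (RingHom.id ℤ) y _ = _
    rw [eval₂Hom_bind₁]
    change _ = eval₂Hom (RingHom.id ℤ) (ext y) F
    congr 2
    funext i
    refine Fin.lastCases ?_ (fun i => ?_) i
    · rw [ext_last, Fin.snoc_last]
      simp
    · rw [ext_castSucc, Fin.snoc_castSucc]
      simp
  have hF0 : F' ≠ 0 := by
    obtain ⟨y, hy0, hy⟩ := hF
    intro h
    apply hy
    have h1 : ext (fun i => y i.castSucc) = y := by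
      funext i
      refine Fin.lastCases ?_ (fun i => ?_) i
      · rw [ext_last]
        rw [Fin.sum_univ_castSucc] at hy0
        linarith
      · rw [ext_castSucc]
    rw [← h1, ← hev, h, map_zero]
  set ρ' : ℝ := ρ / (k + 2) with hρ'
  have hk : (0 : ℝ) < (k : ℝ) + 2 := by positivity
  have hρ'0 : 0 < ρ' := by positivity
  obtain ⟨C, X0, hC, h⟩ := Pool.Agent.X4.VP.main_rk L hL0 (fun j => α (e j)) (fun j => hα _) hrkL
    hε hF0 (fun i => c i.castSucc) hρ'0
  refine ⟨C, max X0 0, hC, fun X hX => ⟨tuples_finite _ _ _ _ _ _, ?_⟩⟩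
  have hX0 : 0 ≤ X := (le_max_right _ _).trans hX
  have h1 := h X ((le_max_left _ _).trans hX)
  have hsum : ∑ S : Finset (Fin (k + 2)), (if S.Nonempty then 1 - α S else 0) =
      ∑ j, (1 - α (e j)) := by
    rw [← Finset.sum_filter, ← hP, ← Finset.sum_coe_sort P]
    exact (Equiv.sum_comp e (fun S : P => 1 - α S)).symm
  rw [hsum]
  push_cast
  refine h1.trans ?_
  have hsub : ext '' (Pool.Agent.X4.VP.Pts L (fun j => α (e j)) ε F'
      (fun i => c i.castSucc) ρ' X) ⊆ Tuples α ε F c ρ X := by
    rintro _ ⟨y, ⟨g1, g2, g3, g4⟩, rfl⟩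
    have g5 : ∀ S : Finset (Fin (k + 2)), S.Nonempty → subsum (ext y) S ≠ 0 ∧
        (rad (subsum (ext y) S).natAbs : ℝ) ≤ ε * |(subsum (ext y) S : ℝ)| ^ (α S) := by
      intro S hS
      have hSP : S ∈ P := by rw [hP, Finset.mem_filter]; exact ⟨Finset.mem_univ _, hS⟩
      have h2 := g4 (e.symm ⟨S, hSP⟩)
      have h3 : ∑ l, L (e.symm ⟨S, hSP⟩) l * y l = subsum (ext y) S := by
        simp only [hL, Equiv.apply_symm_apply]
        rw [coef_sum]
        unfold subsum
        exact Finset.sum_congr rfl fun i _ => (ext_castSucc y i).symm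
      rw [h3] at h2
      simp only [Equiv.apply_symm_apply] at h2
      exact h2
    refine ⟨?_, ext_sum y, ?_, ?_, ?_, fun S hS => (g5 S hS).2⟩
    · intro p hp
      obtain ⟨l, hl⟩ := g1 p hp
      exact ⟨l.castSucc, by rwa [ext_castSucc]⟩
    · intro T hT hTu hT0
      by_cases hlast : Fin.last (k + 2) ∈ T
      · -- the complement
        set S : Finset (Fin (k + 2)) := Finset.univ.filter (fun i => i.castSucc ∉ T) with hS
        have hSne : S.Nonempty := by
          obtain ⟨i, hi⟩ : ∃ i, i ∉ T := by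
            by_contra hcon
            push Not at hcon
            exact hTu (Finset.eq_univ_iff_forall.2 hcon)
          have hil : i ≠ Fin.last (k + 2) := fun h => hi (h ▸ hlast)
          obtain ⟨i', rfl⟩ := Fin.exists_castSucc_eq.2 hil
          exact ⟨i', by rw [hS, Finset.mem_filter]; exact ⟨Finset.mem_univ _, hi⟩⟩
        apply (g5 S hSne).1
        have h2 : ∑ i, ext y i = ∑ i ∈ T, ext y i + subsum (ext y) S := by
          rw [← Finset.sum_add_sum_compl T]
          congr 1
          unfold subsum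
          symm
          have hmap : S.map Fin.castSuccEmb = Tᶜ := ?_
          · rw [← hmap, Finset.sum_map]
            rfl
          ext i
          simp only [Finset.mem_map, Finset.mem_compl, hS, Finset.mem_filter, Finset.mem_univ,
            true_and]
          constructor
          · rintro ⟨j, hj, rfl⟩
            exact hj
          · intro hi
            have hil : i ≠ Fin.last (k + 2) := fun h => hi (h ▸ hlast)
            obtain ⟨i', rfl⟩ := Fin.exists_castSucc_eq.2 hil
            exact ⟨i', hi, rfl⟩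
        rw [ext_sum, hT0] at h2
        linarith
      · set S : Finset (Fin (k + 2)) := Finset.univ.filter (fun i => i.castSucc ∈ T) with hS
        have hmap : S.map Fin.castSuccEmb = T := by
          ext i
          simp only [Finset.mem_map, hS, Finset.mem_filter, Finset.mem_univ, true_and]
          constructor
          · rintro ⟨j, hj, rfl⟩
            exact hj
          · intro hi
            have hil : i ≠ Fin.last (k + 2) := fun h => hlast (h ▸ hi)
            obtain ⟨i', rfl⟩ := Fin.exists_castSucc_eq.2 hil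
            exact ⟨i', hi, rfl⟩
        have hSne : S.Nonempty := by
          rw [← hmap] at hT
          exact Finset.map_nonempty.1 hT
        apply (g5 S hSne).1
        unfold subsum
        rw [← hT0, ← hmap, Finset.sum_map]
        rfl
    · intro i
      refine Fin.lastCases ?_ (fun i => ?_) i
      · rw [ext_last]
        rw [Fin.sum_univ_castSucc] at hc
        have h2 : c (Fin.last (k + 2)) = -∑ i : Fin (k + 2), c i.castSucc := by linarith
        rw [h2]
        have h3 : (((-∑ i, y i : ℤ)) : ℝ) - X * -∑ i : Fin (k + 2), c i.castSucc =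
            -∑ i, ((y i : ℝ) - X * c i.castSucc) := by
          push_cast
          rw [Finset.sum_sub_distrib, ← Finset.mul_sum]
          ring
        rw [h3, abs_neg]
        refine (Finset.abs_sum_le_sum_abs _ _).trans ?_
        refine (Finset.sum_le_sum fun i _ => g2 i).trans ?_
        rw [Finset.sum_const, Finset.card_univ, Fintype.card_fin, nsmul_eq_mul, hρ']
        push_cast
        rw [← mul_assoc, mul_div_cancel₀ _ hk.ne']
      · rw [ext_castSucc]
        refine (g2 i).trans ?_
        apply mul_le_mul_of_nonneg_right _ hX0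
        rw [hρ', div_le_iff₀ hk]
        nlinarith
    · rw [← hev]
      exact g3
  have h2 := Set.ncard_le_ncard hsub (tuples_finite _ _ _ _ _ _)
  rw [Set.ncard_image_of_injective _ ext_inj] at h2
  exact_mod_cast h2

end Pool.Agent.Results.MP_a95293_nt.SubsumsSmallRadicals
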